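import Pool.Agent.Y714.KF.Stm

set_option autoImplicit false

/-! Project KF, job RBC: counting lattices by reduced bases. -/

namespace Pool.Agent.Y901.KF

open NumberField FractionalIdeal Module Finset ComplexConjugate MeasureTheory Filter Topology
open Pool.Agent.Y714.KF
open scoped nonZeroDivisors

section

/-- A finite set on which all fibres of a map have two elements. -/
theorem ncard_two_fib {α β : Type} (E : Set α) (hE : E.Finite) (f : α → β) (g : α → α)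
    (hg : ∀ z ∈ E, g z ∈ E ∧ f (g z) = f z ∧ g z ≠ z)
    (hf : ∀ z ∈ E, ∀ w ∈ E, f z = f w → w = z ∨ w = g z) :
    E.ncard = 2 * (f '' E).ncard := by
  classical
  obtain ⟨S, rfl⟩ := hE.exists_finset_coe
  rw [← Finset.coe_image, Set.ncard_coe_finset, Set.ncard_coe_finset]
  rw [Finset.card_eq_sum_card_fiberwise (f := f) (s := S) (t := S.image f)
    (fun z hz => by
      rw [Finset.coe_image]
      exact Set.mem_image_of_mem f hz)]
  have h2 : ∀ M ∈ S.image f, (S.filter (fun z => f z = M)).card = 2 := by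
    intro M hM
    obtain ⟨z, hz, rfl⟩ := Finset.mem_image.1 hM
    obtain ⟨h1, h3, h4⟩ := hg z (by exact_mod_cast hz)
    rw [Finset.card_eq_two]
    refine ⟨z, g z, h4.symm, ?_⟩
    ext w
    rw [Finset.mem_filter, Finset.mem_insert, Finset.mem_singleton]
    constructor
    · rintro ⟨hw, hw2⟩
      exact hf z (by exact_mod_cast hz) w (by exact_mod_cast hw) hw2.symm
    · rintro (rfl | rfl)
      · exact ⟨hz, rfl⟩
      · exact ⟨by exact_mod_cast h1, h3⟩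
  rw [Finset.sum_congr rfl h2, Finset.sum_const, smul_eq_mul, mul_comm]

/-- Integral points in a dilated bounded set. -/
theorem finite_points {κ : Type} [Fintype κ] (D : Set (κ → ℝ)) (hD : Bornology.IsBounded D)
    (Y : ℕ) (hY : 1 ≤ Y) : {z : κ → ℤ | (fun i => (z i : ℝ) / Y) ∈ D}.Finite := by
  classical
  obtain ⟨R, hR⟩ := hD.exists_norm_le
  have hY0 : (0 : ℝ) < Y := by exact_mod_cast hY
  obtain ⟨N, hN⟩ := exists_nat_ge (R * Y)
  refine (Set.Finite.pi' (t := fun _ : κ => Set.Icc (-(N : ℤ)) N)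
    (fun _ => Set.finite_Icc _ _)).subset ?_
  intro z hz i
  have h1 := hR _ hz
  have h2 : ‖(z i : ℝ) / Y‖ ≤ R := (norm_le_pi_norm (fun i => (z i : ℝ) / Y) i).trans h1
  rw [Real.norm_eq_abs, abs_div, abs_of_pos hY0, div_le_iff₀ hY0] at h2
  have h3 := abs_le.1 (h2.trans hN)
  constructor
  · exact_mod_cast h3.1
  · exact_mod_cast h3.2

variable {K : Type} [Field K] [NumberField K]

section

variable {ι : Type} [Fintype ι] [DecidableEq ι] (b : Basis ι ℚ K)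

theorem bf_div (Y : ℕ) (z w : ι → ℤ) :
    bf b (fun i => (z i : ℝ) / Y) (fun i => (w i : ℝ) / Y) = bk (el b z) (el b w) / (Y : ℝ) ^ 2 := by
  have h1 : ∀ z : ι → ℤ, (fun i => (z i : ℝ) / Y) = (1 / (Y : ℝ)) • (fun i => (z i : ℝ)) := by
    intro z
    funext i
    simp only [Pi.smul_apply, smul_eq_mul]
    ring
  rw [h1, h1, bf_smul_left, bf_smul_right, bk_el]
  ring

theorem bk_self (x : K) : bk x x = qf x := by
  unfold bk qf
  refine Finset.sum_congr rfl fun σ _ => ?_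
  rw [Complex.mul_conj, Complex.normSq_eq_norm_sq, Complex.ofReal_re]

theorem rw2_div (Y : ℕ) (z : ι ⊕ ι → ℤ) : rw2 b (fun i => (z i : ℝ) / Y) =
    fun σ => gl (1 / (Y : ℂ)) 0 0 (1 / (Y : ℂ)) (vec (pr b z) σ) := by
  funext σ
  have h1 : ∀ z : ι → ℤ, (fun i => (z i : ℝ) / Y) = (1 / (Y : ℝ)) • (fun i => (z i : ℝ)) := by
    intro z
    funext i
    simp only [Pi.smul_apply, smul_eq_mul]
    ring
  simp only [rw2, rv, gl, vec, pr, zero_mul, zero_add, add_zero]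
  rw [h1, h1, sg_smul, sg_smul, sg_int, sg_int]
  push_cast
  rfl

theorem br_div {Y : ℕ} (hY : 1 ≤ Y) (z : ι ⊕ ι → ℤ) (σ τ : K →+* ℂ) :
    br (rw2 b (fun i => (z i : ℝ) / Y) σ) (rw2 b (fun i => (z i : ℝ) / Y) τ) ≠ 0 ↔
      br (vec (pr b z) σ) (vec (pr b z) τ) ≠ 0 := by
  have hY0 : (Y : ℂ) ≠ 0 := by
    have : Y ≠ 0 := by omega
    exact_mod_cast this
  rw [rw2_div, br_gl]
  have h1 : (1 / (Y : ℂ)) * (1 / (Y : ℂ)) - 0 * 0 ≠ 0 := by
    rw [mul_zero, sub_zero]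
    exact mul_ne_zero (one_div_ne_zero hY0) (one_div_ne_zero hY0)
  rw [mul_ne_zero_iff]
  exact ⟨fun h => h.2, fun h => ⟨h1, h⟩⟩

theorem pm_div {Y : ℕ} (z : ι ⊕ ι → ℤ) :
    pm (rw2 b (fun i => (z i : ℝ) / Y)) = pm (vec (pr b z)) / (Y : ℝ) ^ (2 * finrank ℚ K) := by
  rw [rw2_div, pm_gl, card_emb]
  have h1 : ‖(1 / (Y : ℂ)) * (1 / (Y : ℂ)) - 0 * 0‖ = 1 / (Y : ℝ) ^ 2 := by
    rw [mul_zero, sub_zero, norm_mul, norm_div, norm_one, Complex.norm_natCast]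
    ring
  rw [h1, one_div, inv_pow, ← pow_mul]
  ring

theorem cc_div (hodd : Odd (finrank ℚ K)) (hn : 2 ≤ finrank ℚ K) {Y : ℕ} (hY : 1 ≤ Y)
    (z : ι ⊕ ι → ℤ) (h : Nd (pr b z)) :
    cc (rw2 b (fun i => (z i : ℝ) / Y)) = cc (vec (pr b z)) := by
  have hY0 : (Y : ℂ) ≠ 0 := by
    have : Y ≠ 0 := by omega
    exact_mod_cast this
  have h1 : (1 / (Y : ℂ)) * (1 / (Y : ℂ)) - 0 * 0 ≠ 0 := by
    rw [mul_zero, sub_zero]
    exact mul_ne_zero (one_div_ne_zero hY0) (one_div_ne_zero hY0)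
  obtain ⟨C, _, hC⟩ := ineqs (J := K →+* ℂ) (by rw [card_emb]; exact hodd)
  rw [rw2_div]
  exact cc_gl _ _ _ _ h1 _ (h.pm_pos hn) (hC _ (h.pm_pos hn)).1

theorem mem_Dc_iff (hodd : Odd (finrank ℚ K)) (hn : 2 ≤ finrank ℚ K) {Y : ℕ} (hY : 1 ≤ Y)
    (κ : Fin (Units.rank K) → ℝ) (δ : ℝ) (z : ι ⊕ ι → ℤ) :
    (fun i => (z i : ℝ) / Y) ∈ Dc b κ δ ↔ (δ * Y) ^ 2 ≤ qf (pr b z).1 ∧ RB (pr b z) ∧
      Nd (pr b z) ∧ pm (vec (pr b z)) ≤ (Y : ℝ) ^ (2 * finrank ℚ K) ∧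
      ∀ j, κ j ≤ cc (vec (pr b z)) j ∧ cc (vec (pr b z)) j ≤ κ j + 1 := by
  have hY0 : (0 : ℝ) < Y := by exact_mod_cast hY
  have hY2 : (0 : ℝ) < (Y : ℝ) ^ 2 := by positivity
  have e11 : bf b (fun i => (z (Sum.inl i) : ℝ) / Y) (fun i => (z (Sum.inl i) : ℝ) / Y) =
      qf (pr b z).1 / (Y : ℝ) ^ 2 := by
    rw [bf_div b Y (fun i => z (Sum.inl i)) (fun i => z (Sum.inl i)), bk_self]; rfl
  have e22 : bf b (fun i => (z (Sum.inr i) : ℝ) / Y) (fun i => (z (Sum.inr i) : ℝ) / Y) =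
      qf (pr b z).2 / (Y : ℝ) ^ 2 := by
    rw [bf_div b Y (fun i => z (Sum.inr i)) (fun i => z (Sum.inr i)), bk_self]; rfl
  have e12 : bf b (fun i => (z (Sum.inl i) : ℝ) / Y) (fun i => (z (Sum.inr i) : ℝ) / Y) =
      bk (pr b z).1 (pr b z).2 / (Y : ℝ) ^ 2 := by
    rw [bf_div b Y (fun i => z (Sum.inl i)) (fun i => z (Sum.inr i))]; rfl
  have hbr : (∀ σ τ : K →+* ℂ, σ ≠ τ → br (rw2 b (fun i => (z i : ℝ) / Y) σ)
      (rw2 b (fun i => (z i : ℝ) / Y) τ) ≠ 0) ↔ Nd (pr b z) :=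
    forall_congr' fun σ => forall_congr' fun τ => forall_congr' fun _ => br_div b hY z σ τ
  have c1 : δ ^ 2 ≤ qf (pr b z).1 / (Y : ℝ) ^ 2 ↔ (δ * Y) ^ 2 ≤ qf (pr b z).1 := by
    rw [le_div_iff₀ hY2, mul_pow]
  have c2 : qf (pr b z).1 / (Y : ℝ) ^ 2 ≤ qf (pr b z).2 / (Y : ℝ) ^ 2 ↔
      qf (pr b z).1 ≤ qf (pr b z).2 := div_le_div_iff_of_pos_right hY2
  have c3 : 0 ≤ bk (pr b z).1 (pr b z).2 / (Y : ℝ) ^ 2 ↔ 0 ≤ bk (pr b z).1 (pr b z).2 := by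
    rw [le_div_iff₀ hY2, zero_mul]
  have c4 : 2 * (bk (pr b z).1 (pr b z).2 / (Y : ℝ) ^ 2) ≤ qf (pr b z).1 / (Y : ℝ) ^ 2 ↔
      2 * bk (pr b z).1 (pr b z).2 ≤ qf (pr b z).1 := by
    rw [← mul_div_assoc]
    exact div_le_div_iff_of_pos_right hY2
  have c5 : pm (rw2 b (fun i => (z i : ℝ) / Y)) ≤ 1 ↔
      pm (vec (pr b z)) ≤ (Y : ℝ) ^ (2 * finrank ℚ K) := by
    rw [pm_div, div_le_one (by positivity)]
  constructor
  · rintro ⟨h1, h2, h3, h4, h5, h6, h7⟩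
    have hNd := hbr.1 h5
    simp only [e11, e22, e12] at h1 h2 h3 h4
    refine ⟨c1.1 h1, ⟨c2.1 h2, c3.1 h3, c4.1 h4⟩, hNd, c5.1 h6, ?_⟩
    rw [cc_div b hodd hn hY z hNd] at h7
    exact h7
  · rintro ⟨h1, ⟨h2, h3, h4⟩, h5, h6, h7⟩
    refine ⟨?_, ?_, ?_, ?_, hbr.2 h5, c5.2 h6, ?_⟩
    · simp only [e11]; exact c1.2 h1
    · simp only [e11, e22]; exact c2.2 h2
    · simp only [e12]; exact c3.2 h3
    · simp only [e12, e11]; exact c4.2 h4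
    · rw [cc_div b hodd hn hY z h5]
      exact h7

theorem mem_Dm_iff (hodd : Odd (finrank ℚ K)) (hn : 2 ≤ finrank ℚ K) {Y : ℕ} (hY : 1 ≤ Y)
    (κ : Fin (Units.rank K) → ℝ) (δ : ℝ) (z : ι ⊕ ι → ℤ) :
    (fun i => (z i : ℝ) / Y) ∈ Dm b κ δ ↔ (δ * Y) ^ 2 < qf (pr b z).1 ∧ SRB (pr b z) ∧
      Nd (pr b z) ∧ pm (vec (pr b z)) < (Y : ℝ) ^ (2 * finrank ℚ K) ∧
      ∀ j, κ j < cc (vec (pr b z)) j ∧ cc (vec (pr b z)) j < κ j + 1 := by
  have hY0 : (0 : ℝ) < Y := by exact_mod_cast hY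
  have hY2 : (0 : ℝ) < (Y : ℝ) ^ 2 := by positivity
  have e11 : bf b (fun i => (z (Sum.inl i) : ℝ) / Y) (fun i => (z (Sum.inl i) : ℝ) / Y) =
      qf (pr b z).1 / (Y : ℝ) ^ 2 := by
    rw [bf_div b Y (fun i => z (Sum.inl i)) (fun i => z (Sum.inl i)), bk_self]; rfl
  have e22 : bf b (fun i => (z (Sum.inr i) : ℝ) / Y) (fun i => (z (Sum.inr i) : ℝ) / Y) =
      qf (pr b z).2 / (Y : ℝ) ^ 2 := by
    rw [bf_div b Y (fun i => z (Sum.inr i)) (fun i => z (Sum.inr i)), bk_self]; rfl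
  have e12 : bf b (fun i => (z (Sum.inl i) : ℝ) / Y) (fun i => (z (Sum.inr i) : ℝ) / Y) =
      bk (pr b z).1 (pr b z).2 / (Y : ℝ) ^ 2 := by
    rw [bf_div b Y (fun i => z (Sum.inl i)) (fun i => z (Sum.inr i))]; rfl
  have hbr : (∀ σ τ : K →+* ℂ, σ ≠ τ → br (rw2 b (fun i => (z i : ℝ) / Y) σ)
      (rw2 b (fun i => (z i : ℝ) / Y) τ) ≠ 0) ↔ Nd (pr b z) :=
    forall_congr' fun σ => forall_congr' fun τ => forall_congr' fun _ => br_div b hY z σ τ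
  have c1 : δ ^ 2 < qf (pr b z).1 / (Y : ℝ) ^ 2 ↔ (δ * Y) ^ 2 < qf (pr b z).1 := by
    rw [lt_div_iff₀ hY2, mul_pow]
  have c2 : qf (pr b z).1 / (Y : ℝ) ^ 2 < qf (pr b z).2 / (Y : ℝ) ^ 2 ↔
      qf (pr b z).1 < qf (pr b z).2 := div_lt_div_iff_of_pos_right hY2
  have c3 : 0 < bk (pr b z).1 (pr b z).2 / (Y : ℝ) ^ 2 ↔ 0 < bk (pr b z).1 (pr b z).2 := by
    rw [lt_div_iff₀ hY2, zero_mul]
  have c4 : 2 * (bk (pr b z).1 (pr b z).2 / (Y : ℝ) ^ 2) < qf (pr b z).1 / (Y : ℝ) ^ 2 ↔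
      2 * bk (pr b z).1 (pr b z).2 < qf (pr b z).1 := by
    rw [← mul_div_assoc]
    exact div_lt_div_iff_of_pos_right hY2
  have c5 : pm (rw2 b (fun i => (z i : ℝ) / Y)) < 1 ↔
      pm (vec (pr b z)) < (Y : ℝ) ^ (2 * finrank ℚ K) := by
    rw [pm_div, div_lt_one (by positivity)]
  constructor
  · rintro ⟨h1, h2, h3, h4, h5, h6, h7⟩
    have hNd := hbr.1 h5
    simp only [e11, e22, e12] at h1 h2 h3 h4
    refine ⟨c1.1 h1, ⟨c2.1 h2, c3.1 h3, c4.1 h4⟩, hNd, c5.1 h6, ?_⟩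
    rw [cc_div b hodd hn hY z hNd] at h7
    exact h7
  · rintro ⟨h1, ⟨h2, h3, h4⟩, h5, h6, h7⟩
    refine ⟨?_, ?_, ?_, ?_, hbr.2 h5, c5.2 h6, ?_⟩
    · simp only [e11]; exact c1.2 h1
    · simp only [e11, e22]; exact c2.2 h2
    · simp only [e12]; exact c3.2 h3
    · simp only [e12, e11]; exact c4.2 h4
    · rw [cc_div b hodd hn hY z h5]
      exact h7

theorem el_neg (z : ι → ℤ) : el b (-z) = -el b z := by
  unfold el
  rw [← Finset.sum_neg_distrib]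
  refine Finset.sum_congr rfl fun i _ => ?_
  simp only [Pi.neg_apply]
  push_cast
  ring

theorem pr_neg (z : ι ⊕ ι → ℤ) : pr b (-z) = (-(pr b z).1, -(pr b z).2) := by
  unfold pr
  rw [← el_neg, ← el_neg]
  rfl

theorem pr_injective : Function.Injective (pr b) := by
  intro z w h
  have h1 := el_injective b (congrArg Prod.fst h)
  have h2 := el_injective b (congrArg Prod.snd h)
  funext i
  cases i with
  | inl i => exact congrFun h1 i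
  | inr i => exact congrFun h2 i

end

theorem Lt_neg (P : K × K) : Lt (-P.1, -P.2) = Lt P := by
  have h := Lt_glz (-1) 0 0 (-1) (by norm_num) P
  rw [← h]
  congr 1
  simp [glz]

theorem qf_neg (x : K) : qf (-x) = qf x := by
  unfold qf
  simp

theorem bk_neg (x y : K) : bk (-x) (-y) = bk x y := by
  unfold bk
  simp

variable (K)

/-- Counting lattices by reduced bases. -/
theorem rbc (h1 : S_CR K) (h2 : S_OPB K) : S_RBC K := by
  classical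
  intro hodd hn3 I b hb κ δ hδ Y hY Pr
  have hn2 : 2 ≤ finrank ℚ K := by omega
  have hY0 : (0 : ℝ) < Y := by exact_mod_cast hY
  have ht : (0 : ℝ) < (Y : ℝ) ^ (2 * finrank ℚ K) := by positivity
  obtain ⟨C, _, hCR⟩ := h1 hodd hn3 κ
  have hSLfin := (hCR I _ ht).1
  have hbd : Bornology.IsBounded (Dc b κ δ) := (h2 hodd hn3 b κ δ hδ).2
  have hDcfin := finite_points (Dc b κ δ) hbd Y hY
  -- the closed region contains the open one
  have hDmDc : ∀ z : Fin (finrank ℚ K) ⊕ Fin (finrank ℚ K) → ℤ,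
      (fun i => (z i : ℝ) / Y) ∈ Dm b κ δ → (fun i => (z i : ℝ) / Y) ∈ Dc b κ δ := by
    intro z hz
    rw [mem_Dm_iff b hodd hn2 hY] at hz
    rw [mem_Dc_iff b hodd hn2 hY]
    exact ⟨hz.1.le, hz.2.1.rb, hz.2.2.1, hz.2.2.2.1.le, fun j =>
      ⟨(hz.2.2.2.2 j).1.le, (hz.2.2.2.2 j).2.le⟩⟩
  set A : Set (Submodule ℤ K) := {M ∈ SL κ (I : FI K) ((Y : ℝ) ^ (2 * finrank ℚ K)) | Pr M}
    with hA
  set E : Set (Fin (finrank ℚ K) ⊕ Fin (finrank ℚ K) → ℤ) :=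
    {z | (fun i => (z i : ℝ) / Y) ∈ Dm b κ δ ∧ Pr (Lt (pr b z))} with hE
  set Cu : Set (Submodule ℤ K) := {M ∈ SL κ (I : FI K) ((Y : ℝ) ^ (2 * finrank ℚ K)) |
      ∃ x ∈ M, x ≠ 0 ∧ qf x ≤ (δ * Y) ^ 2} with hCu
  set Bd : Set (Fin (finrank ℚ K) ⊕ Fin (finrank ℚ K) → ℤ) :=
    {z | (fun i => (z i : ℝ) / Y) ∈ Dc b κ δ \ Dm b κ δ} with hBd
  have hAfin : A.Finite := hSLfin.subset fun M hM => hM.1
  have hCufin : Cu.Finite := hSLfin.subset fun M hM => hM.1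
  have hEfin : E.Finite := hDcfin.subset fun z hz => hDmDc z hz.1
  have hBdfin : Bd.Finite := hDcfin.subset fun z hz => hz.1
  have hct : ∀ z : Fin (finrank ℚ K) ⊕ Fin (finrank ℚ K) → ℤ, ct (pr b z) ≤ (I : FI K) :=
    fun z => ct_le.2 ⟨(hb _).2 ⟨_, rfl⟩, (hb _).2 ⟨_, rfl⟩⟩
  obtain ⟨f, hf⟩ : ∃ f : (Fin (finrank ℚ K) ⊕ Fin (finrank ℚ K) → ℤ) → Submodule ℤ K,
    f = fun z => Lt (pr b z) := ⟨_, rfl⟩
  -- the image of `E` is in `A`
  have hsub1 : f '' E ⊆ A := by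
    rintro _ ⟨z, hz, rfl⟩
    obtain ⟨hz1, hz2⟩ := hz
    rw [mem_Dm_iff b hodd hn2 hY] at hz1
    rw [hf]
    exact ⟨⟨pr b z, rfl, hct z, hz1.2.2.1, fun j => ⟨(hz1.2.2.2.2 j).1.le, (hz1.2.2.2.2 j).2⟩,
      hz1.2.2.2.1.le⟩, hz2⟩
  -- the covering
  have hsub2 : A ⊆ f '' E ∪ Cu ∪ f '' Bd := by
    rintro M ⟨hM1, hM2⟩
    by_cases hMC : M ∈ Cu
    · exact Or.inl (Or.inr hMC)
    obtain ⟨P, hMP, hPI, hPNd, hPNz, hPpm⟩ := hM1
    obtain ⟨Q, hQL, hQRB, hQNd⟩ := exists_rb hPNd hn2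
    obtain ⟨_, i2, i3, _⟩ := Lt_inv hodd hn2 hPNd (hQNd.ind hn2) hQL.symm
    have hQI : ct Q ≤ (I : FI K) := by rw [ct_congr hQL]; exact hPI
    obtain ⟨z1, hz1⟩ := (hb Q.1).1 (ct_le.1 hQI).1
    obtain ⟨z2, hz2⟩ := (hb Q.2).1 (ct_le.1 hQI).2
    obtain ⟨z, hz⟩ : ∃ z : Fin (finrank ℚ K) ⊕ Fin (finrank ℚ K) → ℤ, z = Sum.elim z1 z2 :=
      ⟨_, rfl⟩
    have hprz : pr b z = Q := by
      rw [hz]
      exact Prod.ext hz1.symm hz2.symm
    have hqf : (δ * Y) ^ 2 < qf Q.1 := by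
      by_contra hcon
      refine hMC ⟨⟨P, hMP, hPI, hPNd, hPNz, hPpm⟩, Q.1, ?_, (hQNd.ind hn2).fst, not_lt.1 hcon⟩
      rw [hMP, ← hQL]
      exact fst_mem_Lt Q
    have hfz : f z = M := by
      rw [hf, hMP, ← hQL]
      show Lt (pr b z) = Lt Q
      rw [hprz]
    have hDc : (fun i => (z i : ℝ) / Y) ∈ Dc b κ δ := by
      rw [mem_Dc_iff b hodd hn2 hY, hprz]
      refine ⟨hqf.le, hQRB, hQNd, i2 ▸ hPpm, fun j => ?_⟩
      rw [i3]
      exact ⟨(hPNz j).1, (hPNz j).2.le⟩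
    by_cases hDm : (fun i => (z i : ℝ) / Y) ∈ Dm b κ δ
    · refine Or.inl (Or.inl ⟨z, ⟨hDm, ?_⟩, hfz⟩)
      have : Lt (pr b z) = M := by rw [← hfz, hf]
      rw [this]
      exact hM2
    · exact Or.inr ⟨z, ⟨hDc, hDm⟩, hfz⟩
  -- the fibres
  have hEcard : E.ncard = 2 * (f '' E).ncard := by
    refine ncard_two_fib E hEfin f (fun z => -z) ?_ ?_
    · rintro z ⟨hz1, hz2⟩
      rw [mem_Dm_iff b hodd hn2 hY] at hz1
      obtain ⟨k1, ⟨k2, k3, k4⟩, k5, k6, k7⟩ := hz1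
      have hInd := k5.ind hn2
      have hL : Lt (pr b (-z)) = Lt (pr b z) := by rw [pr_neg, Lt_neg]
      have hInd' : Ind (pr b (-z)) := by
        intro x y hxy
        rw [pr_neg] at hxy
        refine hInd x y ?_
        linear_combination -hxy
      obtain ⟨l1, l2, l3, _⟩ := Lt_inv hodd hn2 k5 hInd' hL.symm
      refine ⟨⟨?_, ?_⟩, ?_, ?_⟩
      · rw [mem_Dm_iff b hodd hn2 hY]
        refine ⟨?_, ⟨?_, ?_, ?_⟩, l1, ?_, ?_⟩
        · rw [pr_neg, qf_neg]; exact k1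
        · rw [pr_neg, qf_neg, qf_neg]; exact k2
        · rw [pr_neg, bk_neg]; exact k3
        · rw [pr_neg, bk_neg, qf_neg]; exact k4
        · rw [l2]; exact k6
        · rw [l3]; exact k7
      · rw [hL]; exact hz2
      · rw [hf]; exact hL
      · intro hcon
        have h3 : pr b (-z) = pr b z := by rw [hcon]
        rw [pr_neg] at h3
        have h4 : -(pr b z).1 = (pr b z).1 := congrArg Prod.fst h3
        have h5 : (2 : K) * (pr b z).1 = 0 := by linear_combination -h4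
        exact hInd.fst ((mul_eq_zero.1 h5).resolve_left two_ne_zero)
    · rintro z ⟨hz1, _⟩ w ⟨hw1, _⟩ hzw
      rw [mem_Dm_iff b hodd hn2 hY] at hz1 hw1
      rw [hf] at hzw
      rcases hz1.2.1.unique hw1.2.1.rb (hz1.2.2.1.ind hn2) (hw1.2.2.1.ind hn2) hzw with h | h
      · left
        exact pr_injective b h
      · right
        refine pr_injective b ?_
        rw [h, pr_neg]
  -- counting
  have hfE : (f '' E).Finite := hEfin.image f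
  have hle1 : (f '' E).ncard ≤ A.ncard := Set.ncard_le_ncard hsub1 hAfin
  have hle2 : A.ncard ≤ (f '' E).ncard + Cu.ncard + Bd.ncard := by
    calc A.ncard ≤ (f '' E ∪ Cu ∪ f '' Bd).ncard :=
          Set.ncard_le_ncard hsub2 ((hfE.union hCufin).union (hBdfin.image f))
      _ ≤ (f '' E ∪ Cu).ncard + (f '' Bd).ncard := Set.ncard_union_le _ _
      _ ≤ (f '' E).ncard + Cu.ncard + (f '' Bd).ncard := by
          gcongr
          exact Set.ncard_union_le _ _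
      _ ≤ (f '' E).ncard + Cu.ncard + Bd.ncard := by
          gcongr
          exact Set.ncard_image_le hBdfin
  have r1 : ((f '' E).ncard : ℝ) ≤ A.ncard := by exact_mod_cast hle1
  have r2 : (A.ncard : ℝ) ≤ (f '' E).ncard + Cu.ncard + Bd.ncard := by exact_mod_cast hle2
  have r3 : (E.ncard : ℝ) = 2 * (f '' E).ncard := by exact_mod_cast hEcard
  rw [r3, abs_of_nonneg (by linarith)]
  linarith

end

end Pool.Agent.Y901.KF
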